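import Pool.Agent.Y221.CF.Stm

/-!
Project CF: derivations of sparse systems are combinations of ruling derivations
(adaptation of `rational_of_sparse` and of `sparse_circ`).
-/

set_option autoImplicit false
set_option linter.overlappingInstances false
set_option linter.unusedSectionVars false

open FF IntermediateField Pool.Agent.W603.LV

namespace Pool.Agent.Y657.CF

open Pool.Agent.W602.GT Pool.Agent.TH466.QG Pool.Agent.TH466.QT
open Pool.Agent.Y221.CF

variable {k : Type} [Field k] {K : Type} [Field K] [Algebra k K]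

theorem logd_of_div (D : Derivation k K K) {u v : K} (hu : u ≠ 0) (hv : v ≠ 0)
    (h : D (u / v) = 0) : D u / u = D v / v := by
  have h1 : D (u / v * v) = (u / v) • D v + v • D (u / v) := D.leibniz _ _
  rw [div_mul_cancel₀ _ hv, h, smul_zero, add_zero, smul_eq_mul] at h1
  rw [h1]
  field_simp

theorem logd_smul (D : Derivation k K K) {c : k} (hc : c ≠ 0) (u : K) :
    D (c • u) / (c • u) = D u / u := by
  have hc' : algebraMap k K c ≠ 0 := by rwa [Ne, map_eq_zero]
  rw [D.map_smul, Algebra.smul_def, Algebra.smul_def, mul_div_mul_left _ _ hc']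

/-- rational weights -/
theorem weights [CharZero K] {m : ℕ} (lam : Fin m → K) : ∃ (t : ℕ) (c : Fin t → K)
    (b : Fin t → Fin m → ℤ), (∀ j, lam j = ∑ i, c i * (b i j : K)) ∧
      ∀ r : Fin m → ℤ, ∑ j, (r j : K) * lam j = 0 → ∀ i, ∑ j, r j * b i j = 0 := by
  let W : Submodule ℚ K := Submodule.span ℚ (Set.range lam)
  have hW : Module.Finite ℚ W := Module.Finite.span_of_finite ℚ (Set.finite_range lam)
  let v := Module.finBasis ℚ W
  let l : Fin m → W := fun j => ⟨lam j, Submodule.subset_span ⟨j, rfl⟩⟩
  have hM : ∀ i : Fin (Module.finrank ℚ W), ∃ (M : ℤ) (b : Fin m → ℤ), M ≠ 0 ∧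
      ∀ j, (b j : ℚ) = (M : ℚ) * v.repr (l j) i := by
    intro i
    obtain ⟨M, hM⟩ := IsLocalization.exist_integer_multiples_of_finite (nonZeroDivisors ℤ)
      (fun j => v.repr (l j) i)
    choose b hb using hM
    refine ⟨M, b, nonZeroDivisors.coe_ne_zero M, fun j => ?_⟩
    have h1 := hb j
    rw [Algebra.smul_def] at h1
    exact h1
  choose M b hM0 hb using hM
  refine ⟨_, fun i => ((v i : W) : K) / (M i : K), b, fun j => ?_, fun r hr i => ?_⟩
  · have h1 := congrArg (fun x : W => (x : K)) (v.sum_repr (l j))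
    simp only [AddSubmonoidClass.coe_finsetSum] at h1
    change _ = lam j at h1
    rw [← h1]
    refine Finset.sum_congr rfl fun i _ => ?_
    have hMK : (M i : K) ≠ 0 := by exact_mod_cast hM0 i
    have h2 : ((b i j : ℚ) : K) = (((M i : ℚ) * v.repr (l j) i : ℚ) : K) := by rw [hb i j]
    push_cast at h2
    change ((v.repr (l j) i • (v i : W) : W) : K) = _
    rw [Submodule.coe_smul, Algebra.smul_def, h2]
    have h3 : (algebraMap ℚ K) (v.repr (l j) i) = ((v.repr (l j) i : ℚ) : K) := by simp
    rw [h3]
    field_simp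
  · have h1 : ∑ j, (r j : ℚ) • l j = 0 := by
      apply Subtype.ext
      simp only [AddSubmonoidClass.coe_finsetSum]
      change ∑ j, (((r j : ℚ) • l j : W) : K) = 0
      rw [← hr]
      refine Finset.sum_congr rfl fun j _ => ?_
      rw [Submodule.coe_smul, Algebra.smul_def]
      simp [l]
    have h2 : ∑ j, (r j : ℚ) * v.repr (l j) i = 0 := by
      have h3 := congrArg (fun x => v.repr x i) h1
      simp only [map_sum, map_smul, map_zero, Finsupp.coe_zero, Pi.zero_apply] at h3
      rw [Finsupp.finsetSum_apply] at h3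
      simpa using h3
    have h4 : ((∑ j, r j * b i j : ℤ) : ℚ) = (M i : ℚ) * ∑ j, (r j : ℚ) * v.repr (l j) i := by
      push_cast
      rw [Finset.mul_sum]
      exact Finset.sum_congr rfl fun j _ => by rw [hb i j]; ring
    rw [h2, mul_zero] at h4
    exact_mod_cast h4

variable [CharZero k] [IsAlgClosed k] {n : ℕ} {ι : Type}

/-- the sums over the classes of monomials with the same logarithmic derivative vanish -/
theorem cls {s N : ℕ} {G : MvPolynomial (Fin (n + 1)) k} (hF : IsPowSparse ∅ s N G)
    {y : Fin (n + 1) → K} (hG0 : val y G = 0) (D : Derivation k K K)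
    (hD : ∀ x ∈ cr k K s N, D x = 0) (j0 : JJ y G) (A : Finset (JJ y G))
    (hA : ∀ j, j ∈ A ↔ D (gg y G j0) / gg y G j0 = D (gg y G j) / gg y G j) :
    ∑ j ∈ A, gg y G j = 0 := by
  classical
  have hRe : Equivalence (fun i j : JJ y G => D (gg y G i) / gg y G i = D (gg y G j) / gg y G j) :=
    ⟨fun _ => rfl, fun h => h.symm, fun h h' => h.trans h'⟩
  have key := class_sum (k := k) (gg y G)
    (fun i j : JJ y G => D (gg y G i) / gg y G i = D (gg y G j) / gg y G j) hRe
    (by
      intro m em hem cc hcc hrel hlin a a'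
      obtain ⟨N', hN', hdvd⟩ := hF.2.2
      let U : Fin (m + 1) → K := fun j => ∏ l, y l ^ (ex (em j) l / N')
      have hUpow : ∀ j, U j ^ N' = ∏ l, y l ^ (ex (em j) l) := by
        intro j
        simp only [U]
        rw [← Finset.prod_pow]
        refine Finset.prod_congr rfl fun l _ => ?_
        rw [← pow_mul]
        congr 1
        exact Nat.div_mul_cancel (hdvd _ (ex_mem (em j)) l (Set.notMem_empty l))
      let c' : Fin (m + 1) → k := fun j => cc j * G.coeff (ex (em j))
      have hval : ∀ j, c' j • U j ^ N' = cc j • gg y G (em j) := by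
        intro j
        rw [hUpow, gg_eq, Algebra.smul_def, Algebra.smul_def, map_mul, mul_assoc]
      have hne : ∀ j, c' j • U j ^ N' ≠ 0 := by
        intro j
        rw [hval]
        exact smul_ne_zero (hcc j) (gg_ne _)
      have hU1 : ∀ j, U j ≠ 0 := by
        intro j h0
        have h1 := hne j
        rcases Nat.eq_zero_or_pos N' with h2 | h2
        · have h4 : U j = 1 := by
            simp only [U]
            rw [h2]
            simp
          rw [h4] at h0
          exact one_ne_zero h0
        · apply h1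
          rw [h0, zero_pow h2.ne', smul_zero]
      have hcirc : IsCirc k s N m N' U c' := by
        refine ⟨?_, hN', hU1, fun j h0 => hne j (by rw [h0, zero_smul]), ?_, ?_⟩
        · have h1 := Fintype.card_le_of_injective _ hem
          rw [Fintype.card_fin] at h1
          exact h1.trans ((gg_card _ _).trans hF.2.1)
        · simp only [hval]
          exact hrel
        · simp only [hval]
          exact hlin
      have h0 := hD _ ⟨m, N', U, c', a, a', hcirc, rfl⟩
      rw [hval, hval] at h0
      have h1 := logd_of_div D (smul_ne_zero (hcc a) (gg_ne _)) (smul_ne_zero (hcc a') (gg_ne _)) h0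
      rw [logd_smul D (hcc a), logd_smul D (hcc a')] at h1
      exact h1)
    (Finset.univ.filter fun j => (fun _ : JJ y G => (1 : k)) j ≠ 0).card (fun _ => 1) le_rfl
    (by simpa using gg_sum hG0) j0
  simp only [one_smul] at key
  rw [← key]
  exact Finset.sum_congr (by ext j; simp [hA]) (fun _ _ => rfl)

/-- the parts of weight `v` vanish -/
theorem wc_zero {s N : ℕ} {G : MvPolynomial (Fin (n + 1)) k} (hF : IsPowSparse ∅ s N G)
    {y : Fin (n + 1) → K} (hG0 : val y G = 0) (D : Derivation k K K)
    (hD : ∀ x ∈ cr k K s N, D x = 0) {b : Fin (n + 1) → ℤ}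
    (hb : ∀ r : Fin (n + 1) → ℤ, ∑ j, (r j : K) * (D (y j) / y j) = 0 → ∑ j, r j * b j = 0)
    (v : ℤ) : val y (wc b v G) = 0 := by
  classical
  rw [val_wc, Finset.sum_filter]
  have h1 := gg_weighted y G (fun α => if ∑ j, (α j : ℤ) * b j = v then 1 else 0)
  simp only [ite_mul, one_mul, zero_mul] at h1
  have h2 : ∑ α ∈ G.support, (if ∑ j, (α j : ℤ) * b j = v then
      algebraMap k K (G.coeff α) * ∏ j, y j ^ α j else 0) =
      ∑ α ∈ G.support, (if ∑ j, (α j : ℤ) * b j = v then mon y G α else 0) := rfl
  rw [h2, h1]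
  have h3 := weighted_sum
    (fun i j : JJ y G => D (gg y G i) / gg y G i = D (gg y G j) / gg y G j)
    ⟨fun _ => rfl, fun h => h.symm, fun h h' => h.trans h'⟩ (gg y G)
    (fun α => if ∑ j, ((ex α) j : ℤ) * b j = v then (1 : K) else 0) ?_
    (fun j0 A hA => cls hF hG0 D hD j0 A hA)
  · simpa only [ite_mul, one_mul, zero_mul] using h3
  · intro α β hαβ
    have hl : ∀ γ : JJ y G, D (gg y G γ) / gg y G γ = ∑ j, ((ex γ) j : K) * (D (y j) / y j) := by
      intro γ
      have h4 : gg y G γ ≠ 0 := gg_ne γ
      rw [gg_eq] at h4 ⊢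
      rw [der_mon D h4, mul_div_cancel_left₀ _ h4]
    rw [hl, hl] at hαβ
    have h5 := hb (fun j => ((ex α) j : ℤ) - ((ex β) j : ℤ)) (by
      push_cast
      simp only [sub_mul, Finset.sum_sub_distrib]
      rw [hαβ, sub_self])
    simp only [sub_mul, Finset.sum_sub_distrib] at h5
    rw [sub_eq_zero.1 h5]

/-- the vector field of a one-parameter group is a ruling derivation -/
theorem rulDer_of {δ : Derivation k K K} {σ : K} (hσ0 : σ ≠ 0) (hσ : δ σ = σ)
    (htop : (consts δ)⟮σ⟯ = ⊤) : RulDer k δ := by
  refine ⟨consts δ, σ, ?_, htop, fun c hc => hc⟩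
  intro halg
  have h1 : Algebra.IsAlgebraic (consts δ) K := by
    have h2 : Algebra.IsAlgebraic (consts δ) (consts δ)⟮σ⟯ :=
      IntermediateField.isAlgebraic_adjoin_simple halg.isIntegral
    constructor
    intro z
    have h3 := h2.isAlgebraic (⟨z, by rw [htop]; exact IntermediateField.mem_top⟩ : (consts δ)⟮σ⟯)
    exact h3.algebraMap (A := K)
  have h2 : Algebra.IsAlgebraic (IntermediateField.adjoin k (consts δ : Set K)) K := by
    rw [IntermediateField.adjoin_self]
    exact h1
  have h3 := der_eq_zero δ _ h2 (fun s hs => hs)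
  rw [h3] at hσ
  exact hσ0 hσ.symm

theorem spa : StmSpa := by
  intro k _ _ _ n ι F s N hF K _ _ w y hy hcomp D hD
  classical
  have hK : CharZero K := charZero_of_injective_algebraMap (algebraMap k K).injective
  have hyU : SubVarU ∅ F K w y :=
    ⟨hy.ne, fun j hj => absurd hj (Set.notMem_empty j), hy.mem, hy.gen, hy.dim⟩
  have hcompU : IsComponentU ∅ F y := by
    obtain ⟨H, hH, hHy, hcone⟩ := hcomp
    exact ⟨H, hH, hHy, fun x hx hxH => hcone x (mem_cone_empty hx) hxH⟩
  obtain ⟨j0, hj0⟩ := Function.ne_iff.1 hy.ne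
  change y j0 ≠ 0 at hj0
  obtain ⟨t, c, b, hlam, hb⟩ := weights (fun j => D (y j) / y j)
  -- the partial derivations
  have hE : ∀ i : Fin t, ∃ E : Derivation k K K,
      E ∈ Submodule.span K {δ : Derivation k K K | RulDer k δ} ∧
      ∀ j, y j ≠ 0 → E (y j / y j0) = c i * ((b i j : K) - b i j0) * (y j / y j0) := by
    intro i
    by_cases hcon : ∃ j1, y j1 ≠ 0 ∧ b i j0 ≠ b i j1
    · obtain ⟨j1, hj1, hne⟩ := hcon
      obtain ⟨δ, σ, g, b', hσ0, hσ, htop, -, hbg, hz⟩ := exists_delta hy.gen (b i) hj0 hj1 hne
        (fun G hG h0 v => ideal_hom hyU hcompU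
          (fun e v => wc_zero (hF e) (hy.mem e) D hD (fun r hr => hb r hr i) v) G hG h0 v)
      refine ⟨(c i * (g : K)) • δ, Submodule.smul_mem _ _
        (Submodule.subset_span (rulDer_of hσ0 hσ htop)), fun j hj => ?_⟩
      obtain ⟨z, hz0, hδz, hjz⟩ := hz j hj
      have h1 : δ (y j / y j0) = (b' j : K) * (y j / y j0) := by
        rw [hjz, δ.leibniz, hδz, smul_zero, add_zero, smul_eq_mul]
        have h2 : δ (σ ^ (b' j)) = (b' j : K) * σ ^ (b' j) := by
          rw [Derivation.leibniz_zpow, hσ, smul_eq_mul, zsmul_eq_mul]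
          rw [← zpow_add_one₀ hσ0, sub_add_cancel]
        rw [h2]
        ring
      have h3 : ((b i j : K) - b i j0) = (g : K) * (b' j : K) := by
        have h4 := hbg j hj
        exact_mod_cast congrArg (fun x : ℤ => (x : K)) h4
      rw [Derivation.smul_apply, h1, h3, smul_eq_mul]
      ring
    · push Not at hcon
      refine ⟨0, Submodule.zero_mem _, fun j hj => ?_⟩
      rw [hcon j hj, sub_self, mul_zero, zero_mul]
      rfl
  choose E hEs hEy using hE
  have hDE : D = ∑ i, E i := by
    have h1 : (⊤ : IntermediateField k K) ≤ consts (D - ∑ i, E i) := by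
      have h2 : ∀ j, y j / y j0 ∈ consts (D - ∑ i, E i) := by
        intro j
        rw [mem_consts, Derivation.sub_apply]
        by_cases hj : y j = 0
        · rw [hj, zero_div, map_zero, map_zero, sub_zero]
        · have h3 : D (y j / y j0) = (D (y j) / y j - D (y j0) / y j0) * (y j / y j0) := by
            have h4 : D (y j / y j0 * y j0) = (y j / y j0) • D (y j0) + y j0 • D (y j / y j0) :=
              D.leibniz _ _
            rw [div_mul_cancel₀ _ hj0, smul_eq_mul, smul_eq_mul] at h4
            rw [h4]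
            field_simp
            ring
          have h5 : (∑ i, E i) (y j / y j0) = ∑ i, E i (y j / y j0) := by
            have h6 := map_sum (Derivation.coeFnAddMonoidHom (R := k) (A := K) (M := K)) E
              Finset.univ
            have h7 := congrFun h6 (y j / y j0)
            rw [Finset.sum_apply] at h7
            exact h7
          rw [h3, h5]
          have h8 : D (y j) / y j = ∑ i, c i * (b i j : K) := hlam j
          have h9 : D (y j0) / y j0 = ∑ i, c i * (b i j0 : K) := hlam j0
          rw [h8, h9, ← Finset.sum_sub_distrib, Finset.sum_mul, ← Finset.sum_sub_distrib]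
          refine Finset.sum_eq_zero fun i _ => ?_
          rw [hEy i j hj]
          ring
      rw [← hy.gen]
      unfold coords
      rw [IntermediateField.adjoin_le_iff]
      rintro _ ⟨i, j, hj, rfl⟩
      have h3 : y i / y j = (y i / y j0) / (y j / y j0) := by field_simp
      rw [h3]
      exact div_mem (h2 i) (h2 j)
    apply Derivation.ext
    intro x
    have h2 : x ∈ consts (D - ∑ i, E i) := h1 IntermediateField.mem_top
    rw [mem_consts, Derivation.sub_apply] at h2
    exact sub_eq_zero.1 h2
  have hmem : D ∈ Submodule.span K {δ : Derivation k K K | RulDer k δ} := by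
    rw [hDE]
    exact Submodule.sum_mem _ fun i _ => hEs i
  obtain ⟨m, f, g, hfg⟩ := (Submodule.mem_span_set').1 hmem
  refine ⟨m, f, fun i => (g i : Derivation k K K), fun i => (g i).2, fun x => ?_⟩
  rw [← hfg]
  have h6 := map_sum (Derivation.coeFnAddMonoidHom (R := k) (A := K) (M := K))
    (fun i => f i • (g i : Derivation k K K)) Finset.univ
  have h7 := congrFun h6 x
  rw [Finset.sum_apply] at h7
  exact h7

end Pool.Agent.Y657.CF
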